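import Pool.Agent.SelfMinor.Compact

/-!
# Graphs with a self-similar side are proper minors of themselves

`TSep G ψ S B`: the finite set `S` separates `B` from the rest, `ψ` maps the graph on `B ∪ S`
isomorphically onto a graph inside `B` which is again a side with separator `ψ S`.
-/

namespace SelfMinor

open Relation Finset

variable {V : Type*}

/-- `G` is a minor of itself with a branch set that contains both ends of an edge `e`, that is,
`G` is a minor of `G / e` -/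
def ProperSelfMinor (G : SimpleGraph V) : Prop :=
  ∃ B : V → Set V, (∀ v, (B v).Nonempty) ∧ (∀ v, (G.induce (B v)).Connected) ∧
    (∀ u v, u ≠ v → Disjoint (B u) (B v)) ∧
    (∀ u v, G.Adj u v → ∃ x ∈ B u, ∃ y ∈ B v, G.Adj x y) ∧
    ∃ w, ∃ x ∈ B w, ∃ y ∈ B w, G.Adj x y

/-- shift by `ψ` across the finite separator `S` -/
structure TSep (G : SimpleGraph V) (ψ : V → V) (S : Finset V) (B : Set V) : Prop where
  ne : S.Nonempty
  disj : ∀ v ∈ S, v ∉ B
  closed : ∀ u ∈ B, ∀ v, G.Adj u v → v ∈ B ∨ v ∈ S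
  shift : ∀ v, v ∈ B ∨ v ∈ S → ψ v ∈ B
  inj : ∀ u v, u ∈ B ∨ u ∈ S → v ∈ B ∨ v ∈ S → ψ u = ψ v → u = v
  adj : ∀ u v, u ∈ B ∨ u ∈ S → v ∈ B ∨ v ∈ S → (G.Adj (ψ u) (ψ v) ↔ G.Adj u v)
  closed' : ∀ b ∈ B, ∀ v, G.Adj (ψ b) v → ∃ z, (z ∈ B ∨ z ∈ S) ∧ ψ z = v

lemma con_induce {G : SimpleGraph V} {C : Set V} (hne : C.Nonempty) (h : Con G.Adj C) :
    (G.induce C).Connected := by
  have key : ∀ u v, ReflTransGen (fun x y => G.Adj x y ∧ x ∈ C ∧ y ∈ C) u v → ∀ (hu : u ∈ C)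
      (hv : v ∈ C), (G.induce C).Reachable ⟨u, hu⟩ ⟨v, hv⟩ := by
    intro u v huv
    induction huv with
    | refl => intro _ _; exact SimpleGraph.Reachable.refl _
    | tail _ h2 ih =>
      intro hu hv
      refine (ih hu h2.2.1).trans (SimpleGraph.Adj.reachable ?_)
      exact h2.1
  obtain ⟨a, ha⟩ := hne
  have : Nonempty C := ⟨⟨a, ha⟩⟩
  exact SimpleGraph.Connected.mk fun u v => key u v (h u u.2 v v.2) u.2 v.2

namespace TSep

variable {G : SimpleGraph V} {ψ : V → V} {S : Finset V} {B : Set V}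

/-- automorphisms -/
lemma of_iso {φ : G ≃g G} (ne : S.Nonempty) (disj : ∀ v ∈ S, v ∉ B)
    (closed : ∀ u ∈ B, ∀ v, G.Adj u v → v ∈ B ∨ v ∈ S)
    (shift : ∀ v, v ∈ B ∨ v ∈ S → φ v ∈ B) : TSep G φ S B := by
  refine ⟨ne, disj, closed, shift, fun _ _ _ _ h => φ.injective h,
    fun _ _ _ _ => φ.map_rel_iff, fun b hb v hbv => ⟨φ.symm v, ?_, φ.apply_symm_apply v⟩⟩
  refine closed b hb _ ?_
  rw [← φ.map_rel_iff, RelIso.apply_symm_apply]
  exact hbv

lemma comp {ψ' : V → V} (h : TSep G ψ S B) (h' : TSep G ψ' S B) : TSep G (ψ ∘ ψ') S B := by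
  have hZ : ∀ v, v ∈ B ∨ v ∈ S → ψ' v ∈ B ∨ ψ' v ∈ S := fun v hv => Or.inl (h'.shift v hv)
  refine ⟨h.ne, h.disj, h.closed, fun v hv => h.shift _ (hZ v hv),
    fun u v hu hv huv => h'.inj u v hu hv (h.inj _ _ (hZ u hu) (hZ v hv) huv),
    fun u v hu hv => (h.adj _ _ (hZ u hu) (hZ v hv)).trans (h'.adj u v hu hv), ?_⟩
  intro b hb v hbv
  obtain ⟨z, hz, rfl⟩ := h.closed' _ (h'.shift b (Or.inl hb)) v hbv
  have h1 : G.Adj (ψ' b) z := (h.adj _ _ (hZ b (Or.inl hb)) hz).1 hbv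
  obtain ⟨z', hz', rfl⟩ := h'.closed' b hb z h1
  exact ⟨z', hz', rfl⟩

lemma iter (h : TSep G ψ S B) (m : ℕ) : TSep G ψ^[m + 1] S B := by
  induction m with
  | zero => exact h
  | succ m ih =>
    rw [Function.iterate_succ']
    exact h.comp ih

lemma pow_or (h : TSep G ψ S B) {v : V} (hv : v ∈ B ∨ v ∈ S) (m : ℕ) :
    ψ^[m] v ∈ B ∨ ψ^[m] v ∈ S := by
  induction m with
  | zero => exact hv
  | succ m ih =>
    rw [Function.iterate_succ_apply']
    exact Or.inl (h.shift _ ih)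

lemma pow_inj (h : TSep G ψ S B) (m : ℕ) {u v : V} (hu : u ∈ B ∨ u ∈ S) (hv : v ∈ B ∨ v ∈ S)
    (huv : ψ^[m] u = ψ^[m] v) : u = v := by
  cases m with
  | zero => exact huv
  | succ m => exact (h.iter m).inj u v hu hv huv

lemma pow_adj (h : TSep G ψ S B) (m : ℕ) {u v : V} (hu : u ∈ B ∨ u ∈ S) (hv : v ∈ B ∨ v ∈ S) :
    G.Adj (ψ^[m] u) (ψ^[m] v) ↔ G.Adj u v := by
  cases m with
  | zero => exact Iff.rfl
  | succ m => exact (h.iter m).adj u v hu hv

lemma pow_closed (h : TSep G ψ S B) (m : ℕ) {b v : V} (hb : b ∈ B) (hv : G.Adj (ψ^[m] b) v) :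
    ∃ z, (z ∈ B ∨ z ∈ S) ∧ ψ^[m] z = v := by
  cases m with
  | zero => exact ⟨v, h.closed b hb v hv, rfl⟩
  | succ m => exact (h.iter m).closed' b hb v hv

lemma leaves (h : TSep G ψ S B) (hG : G.Connected) (x : V) :
    ∃ m0, ∀ m, m0 ≤ m → ∀ z, z ∈ B ∨ z ∈ S → ψ^[m] z ≠ x := by
  obtain ⟨s, hs⟩ := h.ne
  have h1 : ReflTransGen G.Adj s x := SimpleGraph.reachable_iff_reflTransGen _ _ |>.1 (hG s x)
  suffices h2 : ∃ m, ∀ z, z ∈ B ∨ z ∈ S → ψ^[m] z ≠ x by
    obtain ⟨m, hm⟩ := h2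
    refine ⟨m, fun n hn => ?_⟩
    induction n, hn using Nat.le_induction with
    | base => exact hm
    | succ n _ ih =>
      intro z hz
      rw [Function.iterate_succ_apply]
      exact ih _ (Or.inl (h.shift z hz))
  induction h1 with
  | refl =>
    refine ⟨1, fun z hz hzs => h.disj s hs ?_⟩
    rw [← hzs, Function.iterate_one]
    exact h.shift z hz
  | @tail c d _ h2 ih =>
    obtain ⟨m, hm⟩ := ih
    refine ⟨m + 1, fun z hz hzd => ?_⟩
    rw [Function.iterate_succ_apply] at hzd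
    rw [← hzd] at h2
    obtain ⟨z', hz', hzc⟩ := h.pow_closed m (h.shift z hz) h2.symm
    exact hm z' hz' hzc

/-- the slab between `S` and `ψ^[M] S` -/
def Slab (ψ : V → V) (S : Finset V) (B : Set V) (M : ℕ) : Set V :=
  {v | (v ∈ B ∨ v ∈ S) ∧ ∀ b ∈ B, ψ^[M] b ≠ v}

/-- adjacency in the slab -/
def slabR (G : SimpleGraph V) (ψ : V → V) (S : Finset V) (B : Set V) (u v : V) : Prop :=
  G.Adj u v ∧ u ∈ Slab ψ S B 1 ∧ v ∈ Slab ψ S B 1

lemma slabR_symm : ∀ u v, slabR G ψ S B u v → slabR G ψ S B v u :=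
  fun _ _ h => ⟨h.1.symm, h.2.2, h.2.1⟩

lemma mem_slab (h : TSep G ψ S B) {s : V} (hs : s ∈ S) : s ∈ Slab ψ S B 1 := by
  refine ⟨Or.inr hs, fun b hb hbs => h.disj s hs ?_⟩
  rw [← hbs, Function.iterate_one]
  exact h.shift b (Or.inl hb)

/-- a separator of the slab gives a new shift -/
lemma newSep [DecidableEq V] (h : TSep G ψ S B) (hG : G.Connected) {X : Finset V}
    (hXZ : ∀ v ∈ X, v ∈ B ∨ v ∈ S) (hX : Sep (slabR G ψ S B) X S (S.image ψ)) :
    ∃ (ψ' : V → V) (B' : Set V), TSep G ψ' X B' := by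
  set rZ : V → V → Prop := fun u v => G.Adj u v ∧ (u ∈ B ∨ u ∈ S) ∧ (v ∈ B ∨ v ∈ S) with hrZ
  set B' : Set V := {v | (v ∈ B ∨ v ∈ S) ∧ v ∉ X ∧ v ∉ RS rZ X S} with hB'
  have hB'B : ∀ v ∈ B', v ∈ B := by
    rintro v ⟨h1, h2, h3⟩
    rcases h1 with h1 | h1
    · exact h1
    · exact absurd (RS.base h1 h2) h3
  have hZ' : ∀ v, v ∈ B' ∨ v ∈ X → v ∈ B ∨ v ∈ S := by
    rintro v (hv | hv)
    · exact hv.1
    · exact hXZ v hv
  have hcl : ∀ u ∈ B', ∀ v, G.Adj u v → v ∈ B' ∨ v ∈ X := by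
    intro u hu v huv
    have hv := h.closed u (hB'B u hu) v huv
    by_cases hvX : v ∈ X
    · exact Or.inr hvX
    · refine Or.inl ⟨hv, hvX, fun hvR => hu.2.2 ?_⟩
      exact RS.step hvR ⟨huv.symm, hv, hu.1⟩ hu.2.1
  -- the reachable set does not meet the image
  have hW : ∀ w ∈ RS rZ X S, w ∈ RS (slabR G ψ S B) X S ∧
      ∀ z, z ∈ B ∨ z ∈ S → ψ z ≠ w := by
    rintro w ⟨a, haS, haX, haw⟩
    refine rtg_closed (Z := {w | w ∈ RS (slabR G ψ S B) X S ∧ ∀ z, z ∈ B ∨ z ∈ S → ψ z ≠ w})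
      ?_ ?_ haw
    · rintro u ⟨hu1, hu2⟩ w ⟨⟨huw, huZ, hwZ⟩, huX, hwX⟩
      have hwB : ∀ b ∈ B, ψ b ≠ w := by
        intro b hb hbw
        rw [← hbw] at huw
        obtain ⟨z, hz, hzu⟩ := h.closed' b hb u huw.symm
        exact hu2 z hz hzu
      have hR : w ∈ RS (slabR G ψ S B) X S := by
        refine RS.step hu1 ⟨huw, ⟨huZ, fun b hb => ?_⟩, ⟨hwZ, fun b hb => ?_⟩⟩ hwX
        · rw [Function.iterate_one]; exact hu2 b (Or.inl hb)
        · rw [Function.iterate_one]; exact hwB b hb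
      refine ⟨hR, fun z hz hzw => ?_⟩
      rcases hz with hz | hz
      · exact hwB z hz hzw
      · obtain ⟨a, ha, haX, haw⟩ := hR
        exact hX a ha haX w (Finset.mem_coe.2 (Finset.mem_image.2 ⟨z, hz, hzw⟩)) haw
    · exact ⟨RS.base haS haX, fun z hz hza => h.disj a haS (hza ▸ h.shift z hz)⟩
  have himg : ∀ z, z ∈ B ∨ z ∈ S → ψ z ∉ X → ψ z ∈ B' := by
    intro z hz hzX
    exact ⟨Or.inl (h.shift z hz), hzX, fun hR => (hW _ hR).2 z hz rfl⟩
  choose m2 hm2 using h.leaves hG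
  set m0 : ℕ := X.sup m2 with hm0
  have hl : ∀ x ∈ X, ∀ z, z ∈ B ∨ z ∈ S → ψ^[m0 + 1] z ≠ x := fun x hx =>
    hm2 x (m0 + 1) ((Finset.le_sup hx).trans (Nat.le_succ _))
  refine ⟨ψ^[m0 + 1], B', ⟨?_, fun v hv hv' => hv'.2.1 hv, hcl, fun v hv => ?_,
    fun u v hu hv => (h.iter m0).inj u v (hZ' u hu) (hZ' v hv),
    fun u v hu hv => (h.iter m0).adj u v (hZ' u hu) (hZ' v hv), fun b hb v hbv => ?_⟩⟩
  · by_contra hne
    rw [Finset.not_nonempty_iff_eq_empty] at hne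
    obtain ⟨s, hs⟩ := h.ne
    have h1 : ψ s ∈ B' := himg s (Or.inr hs) (by rw [hne]; exact Finset.notMem_empty _)
    have h2 : ReflTransGen G.Adj (ψ s) s :=
      SimpleGraph.reachable_iff_reflTransGen _ _ |>.1 (hG _ _)
    have h3 : s ∈ B' := by
      refine rtg_closed (fun u hu v huv => ?_) h1 h2
      rcases hcl u hu v huv with h4 | h4
      · exact h4
      · rw [hne] at h4
        exact absurd h4 (Finset.notMem_empty _)
    exact h.disj s hs (hB'B s h3)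
  · have h2 : ψ^[m0 + 1] v ∉ X := fun hx => hl _ hx v (hZ' v hv) rfl
    rw [Function.iterate_succ_apply'] at h2 ⊢
    exact himg _ (h.pow_or (hZ' v hv) m0) h2
  · obtain ⟨z, hz, rfl⟩ := (h.iter m0).closed' b (hB'B b hb) v hbv
    exact ⟨z, hcl b hb z (((h.iter m0).adj b z hb.1 hz).1 hbv), rfl⟩

/-- separators can be taken in the slab -/
lemma newSep' [DecidableEq V] (h : TSep G ψ S B) (hG : G.Connected) {X : Finset V}
    (hX : Sep (slabR G ψ S B) X S (S.image ψ)) :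
    ∃ (ψ' : V → V) (X' : Finset V) (B' : Set V), TSep G ψ' X' B' ∧ X'.card ≤ X.card := by
  classical
  set X' : Finset V := X.filter fun v => v ∈ Slab ψ S B 1 with hX'
  have h1 : ∀ v, v ∈ Slab ψ S B 1 → v ∉ (X' : Set V) → v ∉ (X : Set V) := by
    intro v hv hv' hvX
    exact hv' (Finset.mem_coe.2 (Finset.mem_filter.2 ⟨hvX, hv⟩))
  have h2 : Sep (slabR G ψ S B) X' S (S.image ψ) := by
    intro a ha haX b hb hab
    refine hX a ha (h1 a (h.mem_slab ha) haX) b hb ?_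
    exact rtg_mono (fun u v h => ⟨h.1, h1 u h.1.2.1 h.2.1, h1 v h.1.2.2 h.2.2⟩) hab
  obtain ⟨ψ', B', h3⟩ := h.newSep hG (fun v hv => (Finset.mem_filter.1 hv).2.1) h2
  exact ⟨ψ', X', B', h3, Finset.card_filter_le _ _⟩

/-- families of connected sets joining `S` to `ψ^[M] S` -/
structure Link (G : SimpleGraph V) (ψ : V → V) (S : Finset V) (B : Set V) (σ : V → V) (M : ℕ)
    (c : V → Set V) : Prop where
  con : ∀ s ∈ S, Con G.Adj (c s)
  mem : ∀ s ∈ S, s ∈ c s
  fin : ∀ s ∈ S, ψ^[M] (σ^[M] s) ∈ c s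
  sub : ∀ s ∈ S, c s ⊆ Slab ψ S B M
  disj : ∀ s ∈ S, ∀ t ∈ S, s ≠ t → Disjoint (c s) (c t)

lemma link_one [DecidableEq V] (h : TSep G ψ S B)
    (hL : Linked (slabR G ψ S B) (S.image ψ) S S.card) :
    ∃ (σ : V → V) (c : V → Set V), Set.MapsTo σ S S ∧ Set.InjOn σ S ∧
      Link G ψ S B σ 1 c := by
  obtain ⟨c, hc, hcd⟩ := hL.index
  have h1 : ∀ s ∈ S, ∃ t ∈ S, ψ t ∈ c s := by
    intro s hs
    obtain ⟨w, hw, hw2⟩ := (hc s hs).2.2
    obtain ⟨t, ht, rfl⟩ := Finset.mem_image.1 (Finset.mem_coe.1 hw2)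
    exact ⟨t, ht, hw⟩
  choose! σ hσ1 hσ2 using h1
  refine ⟨σ, c, fun s hs => hσ1 s hs, ?_, ⟨fun s hs => (hc s hs).1.mono fun _ _ h => h.1,
    fun s hs => (hc s hs).2.1, fun s hs => ?_, fun s hs v hv => ?_, hcd⟩⟩
  · intro s hs t ht hst
    by_contra hne
    refine Set.disjoint_left.1 (hcd s hs t ht hne) (hσ2 s hs) ?_
    rw [hst]
    exact hσ2 t ht
  · rw [Function.iterate_one, Function.iterate_one]
    exact hσ2 s hs
  · exact rtg_closed (fun _ _ _ h => h.1.2.2) (h.mem_slab hs)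
      ((hc s hs).1 s (hc s hs).2.1 v hv)

lemma link_succ (h : TSep G ψ S B) {σ : V → V} (hσ : Set.MapsTo σ S S) (hi : Set.InjOn σ S)
    {M : ℕ} {c d : V → Set V} (h1 : Link G ψ S B σ 1 d) (hM : Link G ψ S B σ M c) :
    Link G ψ S B σ (M + 1) (fun s => c s ∪ ψ^[M] '' (d (σ^[M] s))) := by
  have hmem : ∀ s ∈ S, σ^[M] s ∈ S := fun s hs => hσ.iterate M hs
  have hinj : ∀ s ∈ S, ∀ t ∈ S, s ≠ t → σ^[M] s ≠ σ^[M] t := fun s hs t ht hst he =>
    hst (hi.iterate hσ M hs ht he)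
  have hdZ : ∀ s ∈ S, ∀ w ∈ d (σ^[M] s), w ∈ B ∨ w ∈ S := fun s hs w hw =>
    (h1.sub _ (hmem s hs) hw).1
  have hcross : ∀ s ∈ S, ∀ t ∈ S, s ≠ t → Disjoint (c s) (ψ^[M] '' (d (σ^[M] t))) := by
    intro s hs t ht hst
    rw [Set.disjoint_left]
    rintro v hv ⟨w, hw, rfl⟩
    have hwZ := hdZ t ht w hw
    have hwB : w ∉ B := fun hwB => (hM.sub s hs hv).2 w hwB rfl
    have hwS : w ∈ S := hwZ.resolve_left hwB
    have hwt : w = σ^[M] t := by
      by_contra hne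
      exact Set.disjoint_left.1 (h1.disj w hwS _ (hmem t ht) hne) (h1.mem w hwS) hw
    rw [hwt] at hv
    exact Set.disjoint_left.1 (hM.disj s hs t ht hst) hv (hM.fin t ht)
  refine ⟨fun s hs => ?_, fun s hs => Or.inl (hM.mem s hs), fun s hs => ?_, fun s hs v hv => ?_,
    fun s hs t ht hst => ?_⟩
  · refine con_union (fun _ _ h => h.symm) (hM.con s hs) (C := c s) ?_ (hM.fin s hs)
      ⟨σ^[M] s, h1.mem _ (hmem s hs), rfl⟩ (Or.inl rfl)
    rintro _ ⟨u, hu, rfl⟩ _ ⟨v, hv, rfl⟩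
    have h2 := h1.con _ (hmem s hs) u hu v hv
    clear hv
    induction h2 with
    | refl => exact .refl
    | @tail x y _ h4 ih =>
      exact ReflTransGen.tail ih ⟨(h.pow_adj M (hdZ s hs x h4.2.1) (hdZ s hs y h4.2.2)).2 h4.1,
        ⟨_, h4.2.1, rfl⟩, ⟨_, h4.2.2, rfl⟩⟩
  · refine Or.inr ⟨ψ (σ^[M + 1] s), ?_, ?_⟩
    · have h2 := h1.fin _ (hmem s hs)
      rw [Function.iterate_one, Function.iterate_one,
        ← Function.iterate_succ_apply' σ M s] at h2
      exact h2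
    · rw [Function.iterate_succ_apply ψ]
  · rcases hv with hv | ⟨w, hw, rfl⟩
    · obtain ⟨h2, h3⟩ := hM.sub s hs hv
      refine ⟨h2, fun b hb => ?_⟩
      rw [Function.iterate_succ_apply]
      exact h3 _ (h.shift b (Or.inl hb))
    · obtain ⟨h2, h3⟩ := h1.sub _ (hmem s hs) hw
      refine ⟨h.pow_or h2 M, fun b hb hbw => ?_⟩
      rw [Function.iterate_succ_apply] at hbw
      refine h3 b hb ?_
      rw [Function.iterate_one]
      exact h.pow_inj M (Or.inl (h.shift b (Or.inl hb))) h2 hbw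
  · rw [Set.disjoint_union_left, Set.disjoint_union_right, Set.disjoint_union_right]
    refine ⟨⟨hM.disj s hs t ht hst, hcross s hs t ht hst⟩, (hcross t ht s hs hst.symm).symm, ?_⟩
    rw [Set.disjoint_left]
    rintro _ ⟨u, hu, rfl⟩ ⟨v, hv, huv⟩
    have h2 := h.pow_inj M (hdZ t ht v hv) (hdZ s hs u hu) huv
    rw [h2] at hv
    exact Set.disjoint_left.1 (h1.disj _ (hmem s hs) _ (hmem t ht) (hinj s hs t ht hst)) hu hv

lemma exists_iterate {σ : V → V} (hσ : Set.MapsTo σ S S) (hi : Set.InjOn σ S) :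
    ∃ M, 0 < M ∧ ∀ s ∈ S, σ^[M] s = s := by
  classical
  set f : S → S := fun s => ⟨σ s.1, hσ s.2⟩ with hf
  have hfi : Function.Injective f := fun s t hst =>
    Subtype.ext (hi s.2 t.2 (congrArg Subtype.val hst))
  set e : Equiv.Perm S := Equiv.ofBijective f (Finite.injective_iff_bijective.1 hfi) with he
  refine ⟨Fintype.card (Equiv.Perm S), Fintype.card_pos, fun s hs => ?_⟩
  have h1 : ∀ n, ((f^[n] ⟨s, hs⟩ : S) : V) = σ^[n] s := by
    intro n
    induction n with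
    | zero => rfl
    | succ n ih =>
      rw [Function.iterate_succ_apply', Function.iterate_succ_apply', ← ih]
  have h2 : f^[Fintype.card (Equiv.Perm S)] ⟨s, hs⟩ = ⟨s, hs⟩ := by
    have h3 : (⇑e)^[Fintype.card (Equiv.Perm S)] = ⇑(e ^ Fintype.card (Equiv.Perm S)) :=
      Equiv.Perm.iterate_eq_pow e _
    rw [pow_card_eq_one] at h3
    have h4 : (⇑e) = f := rfl
    rw [← h4, h3]
    rfl
  rw [← h1, h2]

/-- from a linkage to a model -/
lemma proper_of_link (h : TSep G ψ S B) {σ : V → V} {M : ℕ} (hM : 0 < M)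
    (hid : ∀ s ∈ S, σ^[M] s = s) {c : V → Set V} (hc : Link G ψ S B σ M c) :
    ProperSelfMinor G := by
  classical
  have hfin : ∀ s ∈ S, ψ^[M] s ∈ c s := by
    intro s hs
    have h1 := hc.fin s hs
    rwa [hid s hs] at h1
  set m : V → Set V := fun v => if v ∈ S then c v else if v ∈ B then {ψ^[M] v} else {v}
    with hm
  have mS : ∀ v ∈ S, m v = c v := fun v hv => if_pos hv
  have mB : ∀ v ∈ B, m v = {ψ^[M] v} := by
    intro v hv
    have hvS : v ∉ S := fun h1 => h.disj v h1 hv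
    rw [hm]
    dsimp only
    rw [if_neg hvS, if_pos hv]
  have mA : ∀ v, v ∉ B → v ∉ S → m v = {v} := by
    intro v hv hvS
    rw [hm]
    dsimp only
    rw [if_neg hvS, if_neg hv]
  have hshift : ∀ v, v ∈ B ∨ v ∈ S → ψ^[M] v ∈ B := by
    intro v hv
    obtain ⟨N, rfl⟩ : ∃ N, M = N + 1 := ⟨M - 1, by omega⟩
    exact (h.iter N).shift v hv
  -- position of the branch sets
  have dSB : ∀ u ∈ S, ∀ v ∈ B, Disjoint (m u) (m v) := by
    intro u hu v hv
    rw [mS u hu, mB v hv, Set.disjoint_singleton_right]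
    exact fun h1 => (hc.sub u hu h1).2 v hv rfl
  have dSA : ∀ u ∈ S, ∀ v, v ∉ B → v ∉ S → Disjoint (m u) (m v) := by
    intro u hu v hv hvS
    rw [mS u hu, mA v hv hvS, Set.disjoint_singleton_right]
    intro h1
    rcases (hc.sub u hu h1).1 with h2 | h2
    · exact hv h2
    · exact hvS h2
  have dBA : ∀ u ∈ B, ∀ v, v ∉ B → v ∉ S → Disjoint (m u) (m v) := by
    intro u hu v hv hvS
    rw [mB u hu, mA v hv hvS, Set.disjoint_singleton]
    exact fun h1 => hv (h1 ▸ hshift u (Or.inl hu))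
  refine ⟨m, fun v => ?_, fun v => ?_, fun u v huv => ?_, fun u v huv => ?_, ?_⟩
  · by_cases hvS : v ∈ S
    · rw [mS v hvS]; exact ⟨v, hc.mem v hvS⟩
    · by_cases hvB : v ∈ B
      · rw [mB v hvB]; exact Set.singleton_nonempty _
      · rw [mA v hvB hvS]; exact Set.singleton_nonempty _
  · by_cases hvS : v ∈ S
    · rw [mS v hvS]; exact con_induce ⟨v, hc.mem v hvS⟩ (hc.con v hvS)
    · by_cases hvB : v ∈ B
      · rw [mB v hvB]; exact con_induce (Set.singleton_nonempty _) (con_singleton _ _)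
      · rw [mA v hvB hvS]; exact con_induce (Set.singleton_nonempty _) (con_singleton _ _)
  · by_cases huS : u ∈ S
    · by_cases hvS : v ∈ S
      · rw [mS u huS, mS v hvS]; exact hc.disj u huS v hvS huv
      · by_cases hvB : v ∈ B
        · exact dSB u huS v hvB
        · exact dSA u huS v hvB hvS
    · by_cases huB : u ∈ B
      · by_cases hvS : v ∈ S
        · exact (dSB v hvS u huB).symm
        · by_cases hvB : v ∈ B
          · rw [mB u huB, mB v hvB, Set.disjoint_singleton]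
            exact fun h1 => huv (h.pow_inj M (Or.inl huB) (Or.inl hvB) h1)
          · exact dBA u huB v hvB hvS
      · by_cases hvS : v ∈ S
        · exact (dSA v hvS u huB huS).symm
        · by_cases hvB : v ∈ B
          · exact (dBA v hvB u huB huS).symm
          · rw [mA u huB huS, mA v hvB hvS, Set.disjoint_singleton]
            exact huv
  · -- edges
    by_cases huB : u ∈ B
    · -- the other end is in `B` or `S`
      have hv := h.closed u huB v huv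
      refine ⟨ψ^[M] u, ?_, ψ^[M] v, ?_, (h.pow_adj M (Or.inl huB) hv).2 huv⟩
      · rw [mB u huB]; rfl
      · by_cases hvS : v ∈ S
        · rw [mS v hvS]; exact hfin v hvS
        · rw [mB v (hv.resolve_right hvS)]; rfl
    · by_cases hvB : v ∈ B
      · have hu := h.closed v hvB u huv.symm
        have huS : u ∈ S := hu.resolve_left huB
        refine ⟨ψ^[M] u, ?_, ψ^[M] v, ?_, (h.pow_adj M hu (Or.inl hvB)).2 huv⟩
        · rw [mS u huS]; exact hfin u huS
        · rw [mB v hvB]; rfl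
      · refine ⟨u, ?_, v, ?_, huv⟩
        · by_cases huS : u ∈ S
          · rw [mS u huS]; exact hc.mem u huS
          · rw [mA u huB huS]; rfl
        · by_cases hvS : v ∈ S
          · rw [mS v hvS]; exact hc.mem v hvS
          · rw [mA v hvB hvS]; rfl
  · obtain ⟨s, hs⟩ := h.ne
    have hne : s ≠ ψ^[M] s := by
      intro h1
      refine h.disj s hs ?_
      rw [h1]
      exact hshift s (Or.inr hs)
    rcases ReflTransGen.cases_head (hc.con s hs s (hc.mem s hs) _ (hfin s hs)) with h1 | h1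
    · exact absurd h1 hne
    · obtain ⟨y, ⟨hy1, -, hy2⟩, -⟩ := h1
      refine ⟨s, s, ?_, y, ?_, hy1⟩
      · rw [mS s hs]; exact hc.mem s hs
      · rw [mS s hs]; exact hy2

end TSep

/-- connected graphs with a self-similar side are proper minors of themselves -/
theorem proper_of_tsep {G : SimpleGraph V} (hG : G.Connected)
    (h : ∃ (ψ : V → V) (S : Finset V) (B : Set V), TSep G ψ S B) : ProperSelfMinor G := by
  classical
  have hex : ∃ n, ∃ (ψ : V → V) (S : Finset V) (B : Set V), TSep G ψ S B ∧ S.card = n := by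
    obtain ⟨ψ, S, B, h⟩ := h
    exact ⟨_, ψ, S, B, h, rfl⟩
  obtain ⟨ψ, S, B, hT, hcard⟩ := Nat.find_spec hex
  have hmin : ∀ X : Finset V, Sep (TSep.slabR G ψ S B) X S (S.image ψ) →
      S.card ≤ X.card := by
    intro X hX
    obtain ⟨ψ', X', B', hB', hcX⟩ := hT.newSep' hG hX
    rw [hcard]
    exact (Nat.find_min' hex ⟨_, X', B', hB', rfl⟩).trans hcX
  have hL : Linked (TSep.slabR G ψ S B) (S.image ψ) S S.card := by
    refine menger TSep.slabR_symm _ _ _ fun X hX => hmin X ?_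
    exact hX.symm TSep.slabR_symm
  obtain ⟨σ, c, hσ, hi, hc⟩ := hT.link_one hL
  have hall : ∀ M, ∃ d : V → Set V, TSep.Link G ψ S B σ (M + 1) d := by
    intro M
    induction M with
    | zero => exact ⟨c, hc⟩
    | succ M ih =>
      obtain ⟨d, hd⟩ := ih
      exact ⟨_, hT.link_succ hσ hi hc hd⟩
  obtain ⟨M, hM, hid⟩ := TSep.exists_iterate hσ hi
  obtain ⟨N, rfl⟩ : ∃ N, M = N + 1 := ⟨M - 1, by omega⟩
  obtain ⟨d, hd⟩ := hall N
  exact hT.proper_of_link hM hid hd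

end SelfMinor
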