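import Pool.Agent.SelfMinor.Menger

/-!
# Menger's theorem for finite sets of vertices in an arbitrary graph
-/

namespace SelfMinor

open Relation Finset

variable {V : Type*}

/-- a path uses finitely many edges -/
lemma exists_finite_edges {r : V → V → Prop} {a b : V} (h : ReflTransGen r a b) :
    ∃ E : Finset (V × V), (∀ e ∈ E, r e.1 e.2) ∧ ReflTransGen (ER E) a b := by
  classical
  induction h with
  | refl => exact ⟨∅, by simp, .refl⟩
  | @tail c d _ h2 ih =>
    obtain ⟨E, hE, h⟩ := ih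
    refine ⟨insert (c, d) E, fun e he => ?_, ?_⟩
    · rcases Finset.mem_insert.1 he with rfl | he
      · exact h2
      · exact hE e he
    · exact (rtg_mono (fun _ _ h => h.mono (Finset.subset_insert _ _)) h).tail
        (Or.inl (Finset.mem_insert_self _ _))

lemma compact (k : ℕ) : ∀ (r : V → V → Prop) (A B : Finset V),
    (∀ E : Finset (V × V), (∀ e ∈ E, r e.1 e.2) → ∃ X : Finset V, X.card ≤ k ∧
      Sep (ER E) X A B) → ∃ X : Finset V, X.card ≤ k ∧ Sep r X A B := by
  classical
  induction k with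
  | zero =>
    intro r A B h
    refine ⟨∅, le_rfl, ?_⟩
    intro a ha _ b hb hab
    obtain ⟨E, hE, hEab⟩ := exists_finite_edges
      (rtg_mono (R' := r) (fun _ _ h => h.1) hab)
    obtain ⟨X, hX, hsep⟩ := h E hE
    rw [Finset.card_eq_zero.1 (Nat.le_zero.1 hX), Finset.coe_empty] at hsep
    exact hsep a ha (Set.notMem_empty _) b hb
      (rtg_mono (fun _ _ h => ⟨h, Set.notMem_empty _, Set.notMem_empty _⟩) hEab)
  | succ k ih =>
    intro r A B h
    by_cases h0 : Sep r (∅ : Finset V) A B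
    · exact ⟨∅, Nat.zero_le _, h0⟩
    unfold Sep at h0
    push Not at h0
    obtain ⟨a, ha, -, b, hb, hab⟩ := h0
    obtain ⟨E0, hE0, hE0ab⟩ := exists_finite_edges
      (rtg_mono (R' := r) (fun _ _ h => h.1) hab)
    set P : Finset V := insert a (E0.image Prod.fst ∪ E0.image Prod.snd) with hP
    have hPE : ∀ u v, ER E0 u v → u ∈ P ∧ v ∈ P := by
      intro u v h
      simp only [hP, Finset.mem_insert, Finset.mem_union, Finset.mem_image]
      rcases h with h | h
      · exact ⟨Or.inr (Or.inl ⟨_, h, rfl⟩), Or.inr (Or.inr ⟨_, h, rfl⟩)⟩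
      · exact ⟨Or.inr (Or.inr ⟨_, h, rfl⟩), Or.inr (Or.inl ⟨_, h, rfl⟩)⟩
    have hhit : ∀ E : Finset (V × V), E0 ⊆ E → ∀ X : Finset V, Sep (ER E) X A B →
        ∃ v ∈ P, v ∈ X := by
      intro E hE X hX
      by_contra hno
      push Not at hno
      refine hX a ha (fun h => hno a (Finset.mem_insert_self _ _) h) b hb ?_
      exact rtg_mono (fun u v h => ⟨h.mono hE, fun h1 => hno u (hPE u v h).1 h1,
        fun h1 => hno v (hPE u v h).2 h1⟩) hE0ab
    have hgood : ∃ v ∈ P, ∀ E : Finset (V × V), (∀ e ∈ E, r e.1 e.2) → ∃ X : Finset V,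
        X.card ≤ k + 1 ∧ v ∈ X ∧ Sep (ER E) X A B := by
      by_contra hno
      push Not at hno
      choose! Ev hEv1 hEv2 using hno
      obtain ⟨X, hX, hsep⟩ := h (E0 ∪ P.biUnion Ev) (by
        intro e he
        rcases Finset.mem_union.1 he with he | he
        · exact hE0 e he
        · obtain ⟨v, hv, he⟩ := Finset.mem_biUnion.1 he
          exact hEv1 v hv e he)
      obtain ⟨v, hv, hvX⟩ := hhit _ Finset.subset_union_left X hsep
      refine hEv2 v hv X hX hvX ?_
      intro a ha haX b hb hab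
      refine hsep a ha haX b hb (hab.mono (fun _ _ h => h.mono ?_) subset_rfl)
      exact (Finset.subset_biUnion_of_mem Ev hv).trans Finset.subset_union_right
    obtain ⟨v, -, hgood⟩ := hgood
    obtain ⟨X, hX, hsep⟩ := ih (fun u w => r u w ∧ u ≠ v ∧ w ≠ v) (A.erase v) (B.erase v) (by
      intro E hE
      obtain ⟨X, hX, hvX, hsep⟩ := hgood E (fun e he => (hE e he).1)
      have hE' : ∀ u w, ER E u w → u ≠ v ∧ w ≠ v := by
        intro u w h
        rcases h with h | h
        · exact (hE _ h).2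
        · exact (hE _ h).2.symm
      refine ⟨X.erase v, ?_, ?_⟩
      · rw [Finset.card_erase_of_mem hvX]; omega
      · intro a ha haX b hb hab
        have ha' := Finset.mem_erase.1 (Finset.mem_coe.1 ha)
        have hb' := Finset.mem_erase.1 (Finset.mem_coe.1 hb)
        refine hsep a ha'.2 (fun h => haX ?_) b hb'.2 ?_
        · exact Finset.mem_coe.2 (Finset.mem_erase.2 ⟨ha'.1, h⟩)
        · refine rtg_mono (fun u w h => ?_) hab
          obtain ⟨h1, h2⟩ := hE' u w h.1
          refine ⟨h.1, fun h3 => h.2.1 ?_, fun h3 => h.2.2 ?_⟩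
          · exact Finset.mem_coe.2 (Finset.mem_erase.2 ⟨h1, h3⟩)
          · exact Finset.mem_coe.2 (Finset.mem_erase.2 ⟨h2, h3⟩))
    refine ⟨insert v X, (Finset.card_insert_le _ _).trans (by omega), ?_⟩
    intro a ha haX b hb hab
    have hbX := hab.notMem haX
    rw [Finset.coe_insert] at haX hbX hab
    have hav : a ≠ v := fun h => haX (h ▸ Set.mem_insert _ _)
    have hbv : b ≠ v := fun h => hbX (h ▸ Set.mem_insert _ _)
    refine hsep a (Finset.mem_coe.2 (Finset.mem_erase.2 ⟨hav, ha⟩))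
      (fun h => haX (Set.mem_insert_of_mem _ h)) b
      (Finset.mem_coe.2 (Finset.mem_erase.2 ⟨hbv, hb⟩)) ?_
    refine rtg_mono (fun u w h => ?_) hab
    refine ⟨⟨h.1, fun h1 => h.2.1 (h1 ▸ Set.mem_insert _ _),
      fun h1 => h.2.2 (h1 ▸ Set.mem_insert _ _)⟩, fun h1 => h.2.1 (Set.mem_insert_of_mem _ h1),
      fun h1 => h.2.2 (Set.mem_insert_of_mem _ h1)⟩

/-- Menger's theorem -/
theorem menger {r : V → V → Prop} (hr : ∀ u v, r u v → r v u) (A B : Finset V) (s : ℕ)
    (h : ∀ X : Finset V, Sep r X A B → s ≤ X.card) : Linked r A B s := by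
  rcases Nat.eq_zero_or_pos s with rfl | hs
  · exact ⟨fun i => i.elim0, fun i => i.elim0, fun i => i.elim0, fun i => i.elim0,
      fun i => i.elim0⟩
  by_cases hE : ∃ E : Finset (V × V), (∀ e ∈ E, r e.1 e.2) ∧
      ∀ X : Finset V, Sep (ER E) X A B → s ≤ X.card
  · obtain ⟨E, hE, hX⟩ := hE
    refine (menger_fin E.card E le_rfl A B s hX).mono fun u v h => ?_
    rcases h with h | h
    · exact hE _ h
    · exact hr _ _ (hE _ h)
  · push Not at hE
    obtain ⟨X, hX, hsep⟩ := compact (s - 1) r A B (fun E hE' => by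
      obtain ⟨X, h1, h2⟩ := hE E hE'
      exact ⟨X, by omega, h1⟩)
    have := h X hsep
    omega

end SelfMinor
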