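import Mathlib

/-!
# Menger's theorem with connected sets, for finitely many edges

`menger_fin`: Goering's induction on the number of edges.
-/

namespace SelfMinor

open Relation Finset

variable {V : Type*}

/-- reachability avoiding `X` -/
def Reach (r : V → V → Prop) (X : Set V) : V → V → Prop :=
  ReflTransGen (fun u v => r u v ∧ u ∉ X ∧ v ∉ X)

/-- `X` separates `A` from `B` -/
def Sep (r : V → V → Prop) (X A B : Set V) : Prop :=
  ∀ a ∈ A, a ∉ X → ∀ b ∈ B, ¬ Reach r X a b

/-- connected sets -/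
def Con (r : V → V → Prop) (C : Set V) : Prop :=
  ∀ u ∈ C, ∀ v ∈ C, ReflTransGen (fun x y => r x y ∧ x ∈ C ∧ y ∈ C) u v

/-- `s` disjoint connected sets joining `A` and `B` -/
def Linked (r : V → V → Prop) (A B : Set V) (s : ℕ) : Prop :=
  ∃ C : Fin s → Set V, (∀ i, Con r (C i)) ∧ (∀ i j, i ≠ j → Disjoint (C i) (C j)) ∧
    (∀ i, (C i ∩ A).Nonempty) ∧ (∀ i, (C i ∩ B).Nonempty)

/-- the symmetric relation of a finite set of pairs -/
def ER (E : Finset (V × V)) (u v : V) : Prop := (u, v) ∈ E ∨ (v, u) ∈ E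

lemma ER.symm {E : Finset (V × V)} {u v : V} (h : ER E u v) : ER E v u := Or.symm h

lemma ER.mono {E E' : Finset (V × V)} (hE : E ⊆ E') {u v : V} (h : ER E u v) : ER E' u v :=
  h.imp (fun h => hE h) (fun h => hE h)

lemma rtg_closed {α : Type*} {R : α → α → Prop} {Z : Set α} (hZ : ∀ u ∈ Z, ∀ v, R u v → v ∈ Z)
    {a b : α} (ha : a ∈ Z) (h : ReflTransGen R a b) : b ∈ Z := by
  induction h with
  | refl => exact ha
  | tail _ h2 ih => exact hZ _ ih _ h2

lemma rtg_mono {α : Type*} {R R' : α → α → Prop} (hR : ∀ u v, R u v → R' u v) {a b : α}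
    (h : ReflTransGen R a b) : ReflTransGen R' a b := by
  induction h with
  | refl => exact .refl
  | tail _ h2 ih => exact ih.tail (hR _ _ h2)

lemma rtg_symm {α : Type*} {R : α → α → Prop} (hR : ∀ u v, R u v → R v u) {a b : α}
    (h : ReflTransGen R a b) : ReflTransGen R b a := by
  induction h with
  | refl => exact .refl
  | tail _ h2 ih => exact .head (hR _ _ h2) ih

lemma Reach.mono {r r' : V → V → Prop} {X Y : Set V} (hr : ∀ u v, r u v → r' u v) (hX : Y ⊆ X)
    {a b : V} (h : Reach r X a b) : Reach r' Y a b :=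
  rtg_mono (fun _ _ h => ⟨hr _ _ h.1, fun h1 => h.2.1 (hX h1), fun h1 => h.2.2 (hX h1)⟩) h

lemma Reach.symm {r : V → V → Prop} (hr : ∀ u v, r u v → r v u) {X : Set V} {a b : V}
    (h : Reach r X a b) : Reach r X b a :=
  rtg_symm (fun _ _ h => ⟨hr _ _ h.1, h.2.2, h.2.1⟩) h

lemma Reach.notMem {r : V → V → Prop} {X : Set V} {a b : V} (ha : a ∉ X) (h : Reach r X a b) :
    b ∉ X :=
  rtg_closed (Z := Xᶜ) (fun _ _ _ h => h.2.2) ha h

lemma Sep.symm {r : V → V → Prop} (hr : ∀ u v, r u v → r v u) {X A B : Set V}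
    (h : Sep r X A B) : Sep r X B A := by
  intro b hb hbX a ha hba
  exact h a ha (hba.notMem hbX) b hb (hba.symm hr)

lemma Con.mono {r r' : V → V → Prop} (hr : ∀ u v, r u v → r' u v) {C : Set V} (h : Con r C) :
    Con r' C :=
  fun u hu v hv => rtg_mono (fun _ _ h => ⟨hr _ _ h.1, h.2⟩) (h u hu v hv)

lemma Linked.mono {r r' : V → V → Prop} (hr : ∀ u v, r u v → r' u v) {A B : Set V} {s : ℕ}
    (h : Linked r A B s) : Linked r' A B s := by
  obtain ⟨C, h1, h2⟩ := h
  exact ⟨C, fun i => (h1 i).mono hr, h2⟩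

lemma con_singleton (r : V → V → Prop) (a : V) : Con r {a} := by
  intro u hu v hv
  rw [Set.mem_singleton_iff] at hu hv
  rw [hu, hv]

lemma con_union {r : V → V → Prop} (hr : ∀ u v, r u v → r v u) {C D : Set V} (hC : Con r C)
    (hD : Con r D) {p q : V} (hp : p ∈ C) (hq : q ∈ D) (hpq : p = q ∨ r p q) :
    Con r (C ∪ D) := by
  set R : V → V → Prop := fun x y => r x y ∧ x ∈ C ∪ D ∧ y ∈ C ∪ D with hR
  have h1 : ∀ u ∈ C ∪ D, ReflTransGen R u p := by
    intro u hu
    rcases hu with hu | hu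
    · exact rtg_mono (fun _ _ h => ⟨h.1, Or.inl h.2.1, Or.inl h.2.2⟩) (hC u hu p hp)
    · have h2 : ReflTransGen R u q :=
        rtg_mono (fun _ _ h => ⟨h.1, Or.inr h.2.1, Or.inr h.2.2⟩) (hD u hu q hq)
      rcases hpq with rfl | hpq
      · exact h2
      · exact h2.tail ⟨hr _ _ hpq, Or.inr hq, Or.inl hp⟩
  intro u hu v hv
  exact (h1 u hu).trans (rtg_symm (fun _ _ h => ⟨hr _ _ h.1, h.2.2, h.2.1⟩) (h1 v hv))

/-- indexing a linkage by its end set -/
lemma Linked.index {r : V → V → Prop} {A : Set V} {P : Finset V}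
    (h : Linked r A P P.card) : ∃ c : V → Set V, (∀ p ∈ P, Con r (c p) ∧ p ∈ c p ∧
      (c p ∩ A).Nonempty) ∧ ∀ p ∈ P, ∀ q ∈ P, p ≠ q → Disjoint (c p) (c q) := by
  classical
  obtain ⟨C, h1, h2, h3, h4⟩ := h
  choose f hf using h4
  have hinj : Function.Injective f := by
    intro i j hij
    by_contra hne
    exact Set.disjoint_left.1 (h2 i j hne) (hf i).1 (hij ▸ (hf j).1)
  have himg : Finset.univ.image f = P := by
    refine Finset.eq_of_subset_of_card_le (fun v hv => ?_) ?_
    · obtain ⟨i, -, rfl⟩ := Finset.mem_image.1 hv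
      exact (hf i).2
    · rw [Finset.card_image_of_injective _ hinj, Finset.card_univ, Fintype.card_fin]
  have hsurj : ∀ p ∈ P, ∃ i, f i = p := by
    intro p hp
    rw [← himg] at hp
    obtain ⟨i, -, h⟩ := Finset.mem_image.1 hp
    exact ⟨i, h⟩
  have hc : ∀ i, {w | ∃ j, f j = f i ∧ w ∈ C j} = C i := by
    intro i
    ext w
    constructor
    · rintro ⟨j, hj, hw⟩
      exact hinj hj ▸ hw
    · exact fun hw => ⟨i, rfl, hw⟩
  refine ⟨fun v => {w | ∃ j, f j = v ∧ w ∈ C j}, ?_, ?_⟩
  · intro p hp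
    obtain ⟨i, rfl⟩ := hsurj p hp
    dsimp only
    rw [hc i]
    exact ⟨h1 i, (hf i).1, h3 i⟩
  · intro p hp q hq hpq
    obtain ⟨i, rfl⟩ := hsurj p hp
    obtain ⟨j, rfl⟩ := hsurj q hq
    dsimp only
    rw [hc i, hc j]
    exact h2 i j (fun h => hpq (h ▸ rfl))

lemma linked_of_index {r : V → V → Prop} {A B : Set V} (P : Finset V) (c : V → Set V)
    (h1 : ∀ p ∈ P, Con r (c p)) (h2 : ∀ p ∈ P, ∀ q ∈ P, p ≠ q → Disjoint (c p) (c q))
    (h3 : ∀ p ∈ P, (c p ∩ A).Nonempty) (h4 : ∀ p ∈ P, (c p ∩ B).Nonempty) :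
    Linked r A B P.card := by
  refine ⟨fun i => c (P.equivFin.symm i).1, fun i => h1 _ (P.equivFin.symm i).2,
    fun i j hij => ?_, fun i => h3 _ (P.equivFin.symm i).2, fun i => h4 _ (P.equivFin.symm i).2⟩
  refine h2 _ (P.equivFin.symm i).2 _ (P.equivFin.symm j).2 fun h => hij ?_
  exact P.equivFin.symm.injective (Subtype.ext h)

/-- the relation with one more edge -/
def addE (r : V → V → Prop) (x y : V) (u v : V) : Prop :=
  r u v ∨ (u = x ∧ v = y) ∨ (u = y ∧ v = x)

lemma addE_symm {r : V → V → Prop} (hr : ∀ u v, r u v → r v u) {x y u v : V}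
    (h : addE r x y u v) : addE r x y v u := by
  rcases h with h | ⟨h1, h2⟩ | ⟨h1, h2⟩
  · exact Or.inl (hr _ _ h)
  · exact Or.inr (Or.inr ⟨h2, h1⟩)
  · exact Or.inr (Or.inl ⟨h2, h1⟩)

lemma addE_comm {r : V → V → Prop} {x y u v : V} (h : addE r x y u v) : addE r y x u v := by
  rcases h with h | h | h
  · exact Or.inl h
  · exact Or.inr (Or.inr h)
  · exact Or.inr (Or.inl h)

/-- the vertices reachable from `A` -/
def RS (r : V → V → Prop) (X A : Set V) : Set V := {v | ∃ a ∈ A, a ∉ X ∧ Reach r X a v}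

lemma RS.notMem {r : V → V → Prop} {X A : Set V} {v : V} (h : v ∈ RS r X A) : v ∉ X := by
  obtain ⟨a, _, ha, h⟩ := h
  exact h.notMem ha

lemma RS.step {r : V → V → Prop} {X A : Set V} {u v : V} (h : u ∈ RS r X A) (huv : r u v)
    (hv : v ∉ X) : v ∈ RS r X A := by
  have hu := RS.notMem h
  obtain ⟨a, haA, ha, h⟩ := h
  exact ⟨a, haA, ha, ReflTransGen.tail h ⟨huv, hu, hv⟩⟩

lemma RS.base {r : V → V → Prop} {X A : Set V} {a : V} (h : a ∈ A) (ha : a ∉ X) :
    a ∈ RS r X A := ⟨a, h, ha, .refl⟩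

lemma RS.disjoint {r : V → V → Prop} (hr : ∀ u v, r u v → r v u) {X A B : Set V}
    (h : Sep r X A B) {v : V} (h1 : v ∈ RS r X A) (h2 : v ∈ RS r X B) : False := by
  obtain ⟨a, haA, ha, h1⟩ := h1
  obtain ⟨b, hbB, hb, h2⟩ := h2
  exact h a haA ha b hbB (h1.trans (h2.symm hr))

/-- the restriction of a set of pairs -/
noncomputable def restr (E : Finset (V × V)) (Z : Set V) : Finset (V × V) :=
  (E.finite_toSet.subset (t := {e | e ∈ E ∧ e.1 ∈ Z ∧ e.2 ∈ Z}) fun _ h => h.1).toFinset

lemma mem_restr {E : Finset (V × V)} {Z : Set V} {e : V × V} :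
    e ∈ restr E Z ↔ e ∈ E ∧ e.1 ∈ Z ∧ e.2 ∈ Z := by
  rw [restr, Set.Finite.mem_toFinset]
  exact Iff.rfl

lemma restr_card (E : Finset (V × V)) (Z : Set V) : (restr E Z).card ≤ E.card :=
  Finset.card_le_card fun _ h => (mem_restr.1 h).1

lemma restr_iff {E : Finset (V × V)} {Z : Set V} {u v : V} :
    ER (restr E Z) u v ↔ ER E u v ∧ u ∈ Z ∧ v ∈ Z := by
  unfold ER
  rw [mem_restr, mem_restr]
  dsimp only
  tauto

lemma con_restr {E : Finset (V × V)} {Z C : Set V} (h : Con (ER (restr E Z)) C) {a : V}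
    (ha : a ∈ C) (haZ : a ∈ Z) : C ⊆ Z := by
  intro v hv
  exact rtg_closed (Z := Z) (fun _ _ _ h => (restr_iff.1 h.1).2.2) haZ (h a ha v hv)

/-- one side of Goering's step: separators in the part are separators -/
lemma side {E : Finset (V × V)} {A B X Y : Set V} {x y : V}
    (hX : Sep (ER E) X A B) (hy : y ∈ RS (ER E) X B)
    (hY : Sep (ER (restr E (RS (ER E) X A ∪ X))) Y A (insert x X)) :
    Sep (addE (ER E) x y) Y A B := by
  have hsym : ∀ u v, ER E u v → ER E v u := fun _ _ h => h.symm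
  set Z : Set V := {v | v ∉ Y ∧ v ∈ RS (ER E) X A ∪ X ∧
    ∃ a ∈ A, a ∉ Y ∧ Reach (ER (restr E (RS (ER E) X A ∪ X))) Y a v} with hZ
  have hZP : ∀ v ∈ Z, v ∉ insert x X := by
    rintro v ⟨_, _, a, haA, haY, hav⟩ hvP
    exact hY a haA haY v hvP hav
  have hyA : y ∉ RS (ER E) X A := fun h => RS.disjoint hsym hX h hy
  have hcl : ∀ u ∈ Z, ∀ v, (addE (ER E) x y u v ∧ u ∉ Y ∧ v ∉ Y) → v ∈ Z := by
    rintro u hu v ⟨huv, huY, hvY⟩
    have h1 := hZP u hu
    obtain ⟨_, h2, a, haA, haY, hau⟩ := hu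
    have h3 : u ∈ RS (ER E) X A := by
      rcases h2 with h2 | h2
      · exact h2
      · exact absurd (Set.mem_insert_of_mem _ h2) h1
    have h4 : ER E u v := by
      rcases huv with h | ⟨h, _⟩ | ⟨h, _⟩
      · exact h
      · exact absurd (h ▸ Set.mem_insert _ _) h1
      · exact absurd (h ▸ h3) hyA
    have h5 : v ∈ RS (ER E) X A ∪ X := by
      by_cases hvX : v ∈ X
      · exact Or.inr hvX
      · exact Or.inl (RS.step h3 h4 hvX)
    exact ⟨hvY, h5, a, haA, haY, ReflTransGen.tail hau ⟨restr_iff.2 ⟨h4, h2, h5⟩, huY, hvY⟩⟩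
  intro a haA haY b hbB hab
  have haZ : a ∈ Z := by
    refine ⟨haY, ?_, a, haA, haY, .refl⟩
    by_cases haX : a ∈ X
    · exact Or.inr haX
    · exact Or.inl (RS.base haA haX)
  have hbZ : b ∈ Z := rtg_closed hcl haZ hab
  have hbP := hZP b hbZ
  rcases hbZ.2.1 with h | h
  · exact RS.disjoint hsym hX h (RS.base hbB (RS.notMem h))
  · exact hbP (Set.mem_insert_of_mem _ h)

/-- Goering's step -/
lemma step {E : Finset (V × V)}
    (ih : ∀ E' : Finset (V × V), E'.card ≤ E.card → ∀ (A B : Finset V) (s : ℕ),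
      (∀ X : Finset V, Sep (ER E') X A B → s ≤ X.card) → Linked (ER E') A B s)
    {A B : Finset V} {s : ℕ} {x y : V}
    (hs : ∀ X : Finset V, Sep (addE (ER E) x y) X A B → s ≤ X.card) {X : Finset V}
    (hX : Sep (ER E) X A B) (hXs : X.card < s) (hx : x ∈ RS (ER E) X A)
    (hy : y ∈ RS (ER E) X B) : Linked (addE (ER E) x y) A B s := by
  classical
  have hsym : ∀ u v, ER E u v → ER E v u := fun _ _ h => h.symm
  have hsym' : ∀ u v, addE (ER E) x y u v → addE (ER E) x y v u := fun _ _ h => addE_symm hsym h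
  have hxX : x ∉ X := fun h => RS.notMem hx h
  have hyX : y ∉ X := fun h => RS.notMem hy h
  have hcard : s = X.card + 1 := by
    have h1 : Sep (addE (ER E) x y) (insert x X : Finset V) A B := by
      intro a haA haX b hbB hab
      rw [Finset.coe_insert] at haX hab
      refine hX a haA (fun h => haX (Set.mem_insert_of_mem _ h)) b hbB ?_
      refine rtg_mono (fun u v h => ?_) hab
      refine ⟨?_, fun h1 => h.2.1 (Set.mem_insert_of_mem _ h1),
        fun h1 => h.2.2 (Set.mem_insert_of_mem _ h1)⟩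
      rcases h.1 with h1 | h1 | h1
      · exact h1
      · exact absurd (h1.1 ▸ Set.mem_insert _ _) h.2.1
      · exact absurd (h1.2 ▸ Set.mem_insert _ _) h.2.2
    have h2 := hs _ h1
    rw [Finset.card_insert_of_notMem hxX] at h2
    omega
  have hPc : (insert x X).card = s := by rw [Finset.card_insert_of_notMem hxX, hcard]
  have hQc : (insert y X).card = s := by rw [Finset.card_insert_of_notMem hyX, hcard]
  have hA := ih (restr E (RS (ER E) X A ∪ X)) (restr_card _ _) A (insert x X)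
    (insert x X).card (fun Y hY => by
      rw [hPc]
      refine hs Y (side hX hy ?_)
      rwa [Finset.coe_insert] at hY)
  have hB := ih (restr E (RS (ER E) X B ∪ X)) (restr_card _ _) B (insert y X)
    (insert y X).card (fun Y hY => by
      rw [hQc]
      have h1 := side (hX.symm hsym) hx (by rwa [Finset.coe_insert] at hY)
      refine hs Y (Sep.symm hsym' ?_)
      intro b hb hbY a ha hba
      exact h1 b hb hbY a ha (hba.mono (fun _ _ h => addE_comm h) subset_rfl))
  obtain ⟨c, hc, hcd⟩ := hA.index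
  obtain ⟨d, hd, hdd⟩ := hB.index
  have hAZ : ∀ p ∈ insert x X, c p ⊆ RS (ER E) X A ∪ X := by
    intro p hp
    obtain ⟨h1, _, a, ha, haA⟩ := hc p hp
    refine con_restr h1 ha ?_
    by_cases haX : a ∈ (X : Set V)
    · exact Or.inr haX
    · exact Or.inl (RS.base haA haX)
  have hBZ : ∀ p ∈ insert y X, d p ⊆ RS (ER E) X B ∪ X := by
    intro p hp
    obtain ⟨h1, _, a, ha, haA⟩ := hd p hp
    refine con_restr h1 ha ?_
    by_cases haX : a ∈ (X : Set V)
    · exact Or.inr haX
    · exact Or.inl (RS.base haA haX)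
  have hcX : ∀ p ∈ insert x X, ∀ z ∈ X, z ∈ c p → z = p := by
    intro p hp z hz hzp
    by_contra hne
    exact Set.disjoint_left.1 (hcd z (Finset.mem_insert_of_mem hz) p hp hne)
      (hc z (Finset.mem_insert_of_mem hz)).2.1 hzp
  have hdX : ∀ p ∈ insert y X, ∀ z ∈ X, z ∈ d p → z = p := by
    intro p hp z hz hzp
    by_contra hne
    exact Set.disjoint_left.1 (hdd z (Finset.mem_insert_of_mem hz) p hp hne)
      (hd z (Finset.mem_insert_of_mem hz)).2.1 hzp
  -- the other end
  set m : V → V := fun p => if p = x then y else p with hm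
  have hmx : m x = y := if_pos rfl
  have hmX : ∀ p ∈ X, m p = p := by
    intro p hp
    have hpx : p ≠ x := fun h => hxX (h ▸ hp)
    exact if_neg hpx
  have hmQ : ∀ p ∈ insert x X, m p ∈ insert y X := by
    intro p hp
    rcases Finset.mem_insert.1 hp with hp | hp
    · rw [hp, hmx]; exact Finset.mem_insert_self _ _
    · rw [hmX p hp]; exact Finset.mem_insert_of_mem hp
  have hminj : ∀ p ∈ insert x X, ∀ q ∈ insert x X, p ≠ q → m p ≠ m q := by
    intro p hp q hq hpq
    rcases Finset.mem_insert.1 hp with hp | hp <;> rcases Finset.mem_insert.1 hq with hq | hq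
    · exact absurd (hp.trans hq.symm) hpq
    · rw [hp, hmx, hmX q hq]
      intro h
      rw [← h] at hq
      exact hyX hq
    · rw [hq, hmx, hmX p hp]
      intro h
      rw [h] at hp
      exact hyX hp
    · rw [hmX p hp, hmX q hq]; exact hpq
  have hrA : ∀ u v, ER (restr E (RS (ER E) X A ∪ X)) u v → addE (ER E) x y u v :=
    fun u v h => Or.inl (restr_iff.1 h).1
  have hrB : ∀ u v, ER (restr E (RS (ER E) X B ∪ X)) u v → addE (ER E) x y u v :=
    fun u v h => Or.inl (restr_iff.1 h).1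
  have hcross : ∀ p ∈ insert x X, ∀ q ∈ insert x X, p ≠ q → Disjoint (c p) (d (m q)) := by
    intro p hp q hq hpq
    rw [Set.disjoint_left]
    intro z hz1 hz2
    have hzX : z ∈ X := by
      rcases hAZ p hp hz1 with h1 | h1
      · rcases hBZ _ (hmQ q hq) hz2 with h2 | h2
        · exact absurd h2 (fun h2 => RS.disjoint hsym hX h1 h2)
        · exact h2
      · exact h1
    have h1 := hcX p hp z hzX hz1
    have h2 := hdX _ (hmQ q hq) z hzX hz2
    rcases Finset.mem_insert.1 hq with hq | hq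
    · rw [hq, hmx] at h2
      exact hyX (h2 ▸ hzX)
    · rw [hmX q hq] at h2
      exact hpq (h1.symm.trans h2)
  have hfin := linked_of_index (r := addE (ER E) x y) (A := A) (B := B) (insert x X)
    (fun p => c p ∪ d (m p)) ?_ ?_ ?_ ?_
  · rwa [hPc] at hfin
  · intro p hp
    refine con_union hsym' ((hc p hp).1.mono hrA) ((hd _ (hmQ p hp)).1.mono hrB)
      (hc p hp).2.1 (hd _ (hmQ p hp)).2.1 ?_
    rcases Finset.mem_insert.1 hp with hp | hp
    · rw [hp, hmx]; exact Or.inr (Or.inr (Or.inl ⟨rfl, rfl⟩))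
    · rw [hmX p hp]; exact Or.inl rfl
  · intro p hp q hq hpq
    rw [Set.disjoint_union_left, Set.disjoint_union_right, Set.disjoint_union_right]
    exact ⟨⟨hcd p hp q hq hpq, hcross p hp q hq hpq⟩,
      (hcross q hq p hp hpq.symm).symm, hdd _ (hmQ p hp) _ (hmQ q hq) (hminj p hp q hq hpq)⟩
  · intro p hp
    obtain ⟨a, ha, haA⟩ := (hc p hp).2.2
    exact ⟨a, Or.inl ha, haA⟩
  · intro p hp
    obtain ⟨a, ha, haA⟩ := (hd _ (hmQ p hp)).2.2
    exact ⟨a, Or.inr ha, haA⟩

theorem menger_fin (n : ℕ) : ∀ E : Finset (V × V), E.card ≤ n → ∀ (A B : Finset V) (s : ℕ),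
    (∀ X : Finset V, Sep (ER E) X A B → s ≤ X.card) → Linked (ER E) A B s := by
  classical
  induction n with
  | zero =>
    intro E hE A B s hs
    have hE0 : E = ∅ := Finset.card_eq_zero.1 (Nat.le_zero.1 hE)
    subst hE0
    have h1 : s ≤ (A ∩ B).card := by
      refine hs _ ?_
      intro a haA haX b hbB hab
      have h2 : b ∈ ({a} : Set V) := by
        refine rtg_closed (fun u _ v h => ?_) rfl hab
        rcases h.1 with h | h
        · exact absurd h (Finset.notMem_empty _)
        · exact absurd h (Finset.notMem_empty _)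
      rw [Set.mem_singleton_iff] at h2
      exact haX (Finset.mem_coe.2 (Finset.mem_inter.2 ⟨haA, h2 ▸ hbB⟩))
    obtain ⟨T, hT, hTc⟩ := Finset.exists_subset_card_eq h1
    rw [← hTc]
    refine linked_of_index T (fun p => {p}) (fun p _ => con_singleton _ p)
      (fun p _ q _ hpq => Set.disjoint_singleton.2 hpq) (fun p hp => ⟨p, rfl, ?_⟩)
      (fun p hp => ⟨p, rfl, ?_⟩)
    · exact (Finset.mem_inter.1 (hT hp)).1
    · exact (Finset.mem_inter.1 (hT hp)).2
  | succ n ih =>
    intro E hE A B s hs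
    by_cases hcard : E.card ≤ n
    · exact ih E hcard A B s hs
    have hne : E.Nonempty := Finset.card_pos.1 (by omega)
    obtain ⟨⟨x, y⟩, hxy⟩ := hne
    have hE' : (E.erase (x, y)).card = n := by
      rw [Finset.card_erase_of_mem hxy]; omega
    have hsym : ∀ u v, ER (E.erase (x, y)) u v → ER (E.erase (x, y)) v u := fun _ _ h => h.symm
    have hr : ∀ u v, ER E u v ↔ addE (ER (E.erase (x, y))) x y u v := by
      intro u v
      unfold addE
      unfold ER
      rw [Finset.mem_erase, Finset.mem_erase]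
      constructor
      · rintro (h | h)
        · by_cases h1 : (u, v) = (x, y)
          · rw [Prod.mk.injEq] at h1
            exact Or.inr (Or.inl h1)
          · exact Or.inl (Or.inl ⟨h1, h⟩)
        · by_cases h1 : (v, u) = (x, y)
          · rw [Prod.mk.injEq] at h1
            exact Or.inr (Or.inr ⟨h1.2, h1.1⟩)
          · exact Or.inl (Or.inr ⟨h1, h⟩)
      · rintro ((h | h) | ⟨rfl, rfl⟩ | ⟨rfl, rfl⟩)
        · exact Or.inl h.2
        · exact Or.inr h.2
        · exact Or.inl hxy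
        · exact Or.inr hxy
    by_cases hs' : ∀ X : Finset V, Sep (ER (E.erase (x, y))) X A B → s ≤ X.card
    · exact (ih _ hE'.le A B s hs').mono fun u v h => (hr u v).2 (Or.inl h)
    · push Not at hs'
      obtain ⟨X, hX, hXs⟩ := hs'
      have hs2 : ∀ X : Finset V, Sep (addE (ER (E.erase (x, y))) x y) X A B → s ≤ X.card := by
        intro Y hY
        refine hs Y fun a ha haY b hb hab => ?_
        exact hY a ha haY b hb (hab.mono (fun u v h => (hr u v).1 h) subset_rfl)
      have hkey : ∀ (A B : Finset V), Sep (ER (E.erase (x, y))) X A B →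
          (∀ Y : Finset V, Sep (addE (ER (E.erase (x, y))) x y) Y A B → s ≤ Y.card) →
          (x ∈ RS (ER (E.erase (x, y))) X A ∨ y ∈ RS (ER (E.erase (x, y))) X A) := by
        intro A B hX hs2
        by_contra hno
        push Not at hno
        refine absurd (hs2 X ?_) (by omega)
        intro a ha haX b hb hab
        have hb' : b ∈ RS (ER (E.erase (x, y))) X A := by
          refine rtg_closed (fun u hu v h => ?_) (RS.base ha haX) hab
          rcases h.1 with h1 | h1 | h1
          · exact RS.step hu h1 h.2.2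
          · exact absurd (h1.1 ▸ hu) hno.1
          · exact absurd (h1.1 ▸ hu) hno.2
        exact RS.disjoint hsym hX hb' (RS.base hb (RS.notMem hb'))
      have h1 := hkey A B hX hs2
      have h2 := hkey B A (hX.symm hsym) (fun Y hY => hs2 Y
        (hY.symm fun _ _ h => addE_symm hsym h))
      have ih' : ∀ E' : Finset (V × V), E'.card ≤ (E.erase (x, y)).card → ∀ (A B : Finset V)
          (s : ℕ), (∀ X : Finset V, Sep (ER E') X A B → s ≤ X.card) → Linked (ER E') A B s :=
        fun E' h => ih E' (h.trans hE'.le)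
      rcases h1 with h1 | h1
      · rcases h2 with h2 | h2
        · exact absurd h2 (fun h2 => RS.disjoint hsym hX h1 h2)
        · exact (step ih' hs2 hX hXs h1 h2).mono fun u v h => (hr u v).2 h
      · rcases h2 with h2 | h2
        · refine (step ih' (x := y) (y := x) (fun Y hY => hs2 Y ?_) hX hXs h1 h2).mono
            fun u v h => (hr u v).2 (addE_comm h)
          intro a ha haY b hb hab
          exact hY a ha haY b hb (hab.mono (fun _ _ h => addE_comm h) subset_rfl)
        · exact absurd h2 (fun h2 => RS.disjoint hsym hX h1 h2)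

end SelfMinor
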