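import Pool.Agent.SelfMinor.Trans

/-!
# Quasi-transitive graphs with at least two ends are proper minors of themselves
-/

namespace SelfMinor

open Relation Finset

variable {V : Type*}

/-- the finite set `S` separates `A` from `B` -/
structure TwoSided (G : SimpleGraph V) (A : Set V) (S : Finset V) (B : Set V) : Prop where
  cover : ∀ v, v ∈ A ∨ v ∈ S ∨ v ∈ B
  disjA : ∀ v ∈ S, v ∉ A
  disjB : ∀ v ∈ S, v ∉ B
  disjAB : ∀ v ∈ A, v ∉ B
  clA : ∀ u ∈ A, ∀ v, G.Adj u v → v ∈ A ∨ v ∈ S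
  clB : ∀ u ∈ B, ∀ v, G.Adj u v → v ∈ B ∨ v ∈ S

/-- `D` contains vertices arbitrarily far from `S` -/
def Deep (G : SimpleGraph V) (S : Finset V) (D : Set V) : Prop :=
  ∀ n : ℕ, ∃ v ∈ D, ∀ s ∈ S, n < G.dist s v

lemma TwoSided.symm {G : SimpleGraph V} {A B : Set V} {S : Finset V} (h : TwoSided G A S B) :
    TwoSided G B S A :=
  ⟨fun v => by rcases h.cover v with h | h | h <;> tauto, h.disjB, h.disjA,
    fun v hv hv' => h.disjAB v hv' hv, h.clB, h.clA⟩

/-- a side is pushed into a side -/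
lemma push {G : SimpleGraph V} (hG : G.Connected) {S : Finset V} (hne : S.Nonempty)
    {D D' : Set V} (hD : ∀ u ∈ D, ∀ v, G.Adj u v → v ∈ D ∨ v ∈ S)
    (hD' : ∀ u ∈ D', ∀ v, G.Adj u v → v ∈ D' ∨ v ∈ S) {g : G ≃g G} (h1 : ∀ s ∈ S, g s ∈ D')
    (h2 : ∀ d ∈ D, g d ∉ S) : ∀ w, w ∈ D ∨ w ∈ S → g w ∈ D' := by
  obtain ⟨s, hs⟩ := hne
  intro w
  have h3 : ReflTransGen G.Adj s w := SimpleGraph.reachable_iff_reflTransGen _ _ |>.1 (hG s w)
  induction h3 with
  | refl => exact fun _ => h1 s hs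
  | @tail c d _ hcd ih =>
    intro hd
    rcases hd with hd | hd
    · have hc := ih (hD d hd c hcd.symm)
      rcases hD' _ hc _ (g.map_rel_iff.2 hcd) with h | h
      · exact h
      · exact absurd h (h2 d hd)
    · exact h1 d hd

lemma dichotomy {G : SimpleGraph V} {A B D' : Set V} {S : Finset V} (h : TwoSided G A S B)
    (hcon : Con G.Adj (S : Set V)) (hD' : ∀ s ∈ S, s ∉ D') {g : G ≃g G}
    (h1 : ∀ s ∈ S, g s ∈ D') : (∀ a ∈ A, g a ∉ S) ∨ (∀ b ∈ B, g b ∉ S) := by
  by_cases hA : ∀ a ∈ A, g a ∉ S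
  · exact Or.inl hA
  · push Not at hA
    obtain ⟨a, ha, haS⟩ := hA
    refine Or.inr fun b hb hbS => ?_
    have h2 : g b ∈ g '' A := by
      refine rtg_closed (Z := g '' A) ?_ ⟨a, ha, rfl⟩ (hcon _ haS _ hbS)
      rintro _ ⟨u, hu, rfl⟩ w ⟨huw, _, hwS⟩
      have h3 : g (g.symm w) = w := g.apply_symm_apply w
      rw [← h3] at huw
      rcases h.clA u hu _ (g.map_rel_iff.1 huw) with h4 | h4
      · exact ⟨_, h4, h3⟩
      · refine absurd (h1 _ h4) (hD' _ ?_)
        rw [h3]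
        exact hwS
    obtain ⟨a', ha', hab⟩ := h2
    rw [← g.injective hab] at hb
    exact h.disjAB a' ha' hb

/-- walks that start deep in `D` stay in `D` -/
lemma walk_stays {G : SimpleGraph V} (hG : G.Connected) {S : Finset V} {D : Set V}
    (hD : ∀ u ∈ D, ∀ v, G.Adj u v → v ∈ D ∨ v ∈ S) {v u : V} (p : G.Walk v u) :
    ∀ n : ℕ, p.length ≤ n → v ∈ D → (∀ s ∈ S, n < G.dist s v) → u ∈ D := by
  induction p with
  | nil => exact fun _ _ h _ => h
  | @cons v w u hvw p ih =>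
    intro n hn hv hfar
    rw [SimpleGraph.Walk.length_cons] at hn
    obtain ⟨k, rfl⟩ : ∃ k, n = k + 1 := ⟨n - 1, by omega⟩
    have hfar' : ∀ s ∈ S, k < G.dist s w := by
      intro s hs
      have h1 := hfar s hs
      have h2 : G.dist s v ≤ G.dist s w + G.dist w v := hG.dist_triangle
      rw [SimpleGraph.dist_eq_one_iff_adj.2 hvw.symm] at h2
      omega
    refine ih k (by omega) ?_ hfar'
    rcases hD v hv w hvw with h | h
    · exact h
    · have h1 := hfar' w h
      rw [SimpleGraph.dist_self] at h1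
      omega

/-- the separator can be moved into a deep side -/
lemma exists_move {G : SimpleGraph V} (hG : G.Connected) {F : Finset V}
    (hF : ∀ v, ∃ g : G ≃g G, g v ∈ F) {S : Finset V} {D : Set V}
    (hD : ∀ u ∈ D, ∀ v, G.Adj u v → v ∈ D ∨ v ∈ S) (hdeep : Deep G S D) :
    ∃ g : G ≃g G, ∀ s ∈ S, g s ∈ D := by
  set N : ℕ := F.sup fun f => S.sup fun s => G.dist f s with hN
  obtain ⟨v, hv, hfar⟩ := hdeep N
  obtain ⟨g, hg⟩ := hF v
  refine ⟨g.symm, fun s hs => ?_⟩
  obtain ⟨p, hp⟩ := hG.exists_walk_length_eq_dist (g v) s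
  have hlen : p.length ≤ N := by
    rw [hp]
    exact (Finset.le_sup (f := fun s => G.dist (g v) s) hs).trans
      (Finset.le_sup (f := fun f => S.sup fun s => G.dist f s) hg)
  have hq : ∃ q : G.Walk (g.symm (g v)) (g.symm s), q.length = p.length :=
    ⟨p.map g.symm.toHom, SimpleGraph.Walk.length_map _ _⟩
  rw [g.symm_apply_apply] at hq
  obtain ⟨q, hq⟩ := hq
  exact walk_stays hG hD q N (hq.trans_le hlen) hv hfar

/-- quasi-transitive graphs with two deep sides have a translation -/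
theorem tsep_of_deep {G : SimpleGraph V} (hG : G.Connected) {F : Finset V}
    (hF : ∀ v, ∃ g : G ≃g G, g v ∈ F) {A B : Set V} {S : Finset V} (h : TwoSided G A S B)
    (hcon : Con G.Adj (S : Set V)) (hne : S.Nonempty) (hA : Deep G S A) (hB : Deep G S B) :
    ∃ (ψ : V → V) (S : Finset V) (B : Set V), TSep G ψ S B := by
  obtain ⟨g, hg⟩ := exists_move hG hF h.clB hB
  obtain ⟨k, hk⟩ := exists_move hG hF h.clA hA
  rcases dichotomy h hcon h.disjB hg with h1 | h1
  · rcases dichotomy h hcon h.disjA hk with h2 | h2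
    · exact ⟨k, S, A, TSep.of_iso hne h.disjA h.clA (push hG hne h.clA h.clA hk h2)⟩
    · have e1 := push hG hne h.clA h.clB hg h1
      have e2 := push hG hne h.clB h.clA hk h2
      refine ⟨(g * k : G ≃g G), S, B, TSep.of_iso hne h.disjB h.clB fun v hv => ?_⟩
      rw [RelIso.mul_apply]
      exact e1 _ (Or.inl (e2 v hv))
  · exact ⟨g, S, B, TSep.of_iso hne h.disjB h.clB (push hG hne h.clB h.clB hg h1)⟩

lemma con_of_induce {G : SimpleGraph V} {C : Set V} (h : (G.induce C).Connected) :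
    Con G.Adj C := by
  intro u hu v hv
  have h1 : ReflTransGen (G.induce C).Adj ⟨u, hu⟩ ⟨v, hv⟩ :=
    SimpleGraph.reachable_iff_reflTransGen _ _ |>.1 (h ⟨u, hu⟩ ⟨v, hv⟩)
  have h2 : ∀ x y : C, ReflTransGen (G.induce C).Adj x y →
      ReflTransGen (fun x y => G.Adj x y ∧ x ∈ C ∧ y ∈ C) x.1 y.1 := by
    intro x y hxy
    induction hxy with
    | refl => exact .refl
    | @tail b c _ h2 ih => exact ih.tail ⟨h2, b.2, c.2⟩
  exact h2 _ _ h1

/-- the separator can be made connected -/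
theorem tsep_of_deep' {G : SimpleGraph V} (hG : G.Connected) {F : Finset V}
    (hF : ∀ v, ∃ g : G ≃g G, g v ∈ F) {A B : Set V} {K : Finset V} (h : TwoSided G A K B)
    (hA : Deep G K A) (hB : Deep G K B) :
    ∃ (ψ : V → V) (S : Finset V) (B : Set V), TSep G ψ S B := by
  have hne : K.Nonempty := by
    by_contra hno
    rw [Finset.not_nonempty_iff_eq_empty] at hno
    obtain ⟨a, ha, -⟩ := hA 0
    obtain ⟨b, hb, -⟩ := hB 0
    have h1 : ReflTransGen G.Adj a b := SimpleGraph.reachable_iff_reflTransGen _ _ |>.1 (hG a b)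
    have h2 : b ∈ A := by
      refine rtg_closed (fun u hu v huv => ?_) ha h1
      rcases h.clA u hu v huv with h3 | h3
      · exact h3
      · rw [hno] at h3
        exact absurd h3 (Finset.notMem_empty _)
    exact h.disjAB b h2 hb
  obtain ⟨S, hKS, hS⟩ := G.extend_finset_to_connected hG.preconnected hne
  obtain ⟨k, hk⟩ := hne
  have hdeep : ∀ D : Set V, Deep G K D → Deep G S (D \ S) := by
    intro D hD n
    obtain ⟨v, hv, hfar⟩ := hD (n + S.sup fun s => G.dist k s)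
    have h1 : ∀ s ∈ S, n < G.dist s v := by
      intro s hs
      have h2 := hfar k hk
      have h3 : G.dist k v ≤ G.dist k s + G.dist s v := hG.dist_triangle
      have h4 : G.dist k s ≤ S.sup fun s => G.dist k s :=
        Finset.le_sup (f := fun s => G.dist k s) hs
      omega
    refine ⟨v, ⟨hv, fun hvS => ?_⟩, h1⟩
    have h2 := h1 v hvS
    rw [SimpleGraph.dist_self] at h2
    omega
  refine tsep_of_deep hG hF (A := A \ S) (B := B \ S) (S := S)
    ⟨fun v => ?_, fun v hv hv' => hv'.2 hv, fun v hv hv' => hv'.2 hv,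
      fun v hv hv' => h.disjAB v hv.1 hv'.1, fun u hu v huv => ?_, fun u hu v huv => ?_⟩
    (con_of_induce hS) ⟨k, hKS hk⟩ (hdeep A hA) (hdeep B hB)
  · by_cases hvS : v ∈ S
    · exact Or.inr (Or.inl hvS)
    · rcases h.cover v with h1 | h1 | h1
      · exact Or.inl ⟨h1, hvS⟩
      · exact absurd (hKS h1) hvS
      · exact Or.inr (Or.inr ⟨h1, hvS⟩)
  · by_cases hvS : v ∈ S
    · exact Or.inr hvS
    · rcases h.clA u hu.1 v huv with h1 | h1
      · exact Or.inl ⟨h1, hvS⟩
      · exact absurd (hKS h1) hvS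
  · by_cases hvS : v ∈ S
    · exact Or.inr hvS
    · rcases h.clB u hu.1 v huv with h1 | h1
      · exact Or.inl ⟨h1, hvS⟩
      · exact absurd (hKS h1) hvS

lemma ball_finite {G : SimpleGraph V} (hlf : ∀ v, (G.neighborSet v).Finite) (n : ℕ) :
    ∀ s, {v | ∃ p : G.Walk s v, p.length ≤ n}.Finite := by
  induction n with
  | zero =>
    intro s
    refine (Set.finite_singleton s).subset ?_
    rintro v ⟨p, hp⟩
    exact (SimpleGraph.Walk.eq_of_length_eq_zero (Nat.le_zero.1 hp)).symm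
  | succ n ih =>
    intro s
    refine ((Set.finite_singleton s).union ((hlf s).biUnion fun u _ => ih u)).subset ?_
    rintro v ⟨p, hp⟩
    cases p with
    | nil => exact Or.inl rfl
    | @cons _ w _ hsw q =>
      refine Or.inr (Set.mem_iUnion₂.2 ⟨w, hsw, q, ?_⟩)
      rw [SimpleGraph.Walk.length_cons] at hp
      omega

lemma deep_of_infinite {G : SimpleGraph V} (hG : G.Connected)
    (hlf : ∀ v, (G.neighborSet v).Finite) {D : Set V} (hD : D.Infinite) (S : Finset V) :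
    Deep G S D := by
  intro n
  have h1 : (⋃ s ∈ S, {v | ∃ p : G.Walk s v, p.length ≤ n}).Finite :=
    S.finite_toSet.biUnion fun s _ => ball_finite hlf n s
  obtain ⟨v, hv, hv'⟩ := (hD.sdiff h1).nonempty
  refine ⟨v, hv, fun s hs => ?_⟩
  by_contra hno
  push Not at hno
  obtain ⟨p, hp⟩ := hG.exists_walk_length_eq_dist s v
  exact hv' (Set.mem_iUnion₂.2 ⟨s, hs, p, hp.trans_le hno⟩)

theorem tsep_of_ends {G : SimpleGraph V} (hG : G.Connected)
    (hlf : ∀ v, (G.neighborSet v).Finite) {F : Finset V}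
    (hF : ∀ v, ∃ g : G ≃g G, g v ∈ F) (he : ∃ e₁ e₂ : G.end, e₁ ≠ e₂) :
    ∃ (ψ : V → V) (S : Finset V) (B : Set V), TSep G ψ S B := by
  obtain ⟨e₁, e₂, hne⟩ := he
  obtain ⟨K, hK⟩ : ∃ K : (Finset V)ᵒᵖ, e₁.1 K ≠ e₂.1 K := by
    by_contra hno
    push Not at hno
    exact hne (Subtype.ext (funext hno))
  have hinf : ∀ e : G.end, (SimpleGraph.ComponentCompl.supp (e.1 K)).Infinite := by
    intro e
    refine (SimpleGraph.ComponentCompl.infinite_iff_in_all_ranges (e.1 K)).2 fun L hL => ?_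
    exact ⟨e.1 (Opposite.op L), e.2 (CategoryTheory.opHomOfLE hL)⟩
  set C₁ : G.ComponentCompl K.unop := e₁.1 K with hC₁
  set C₂ : G.ComponentCompl K.unop := e₂.1 K with hC₂
  have hsub : (C₂ : Set V) ⊆ {v | v ∉ K.unop ∧ v ∉ C₁} := by
    intro v hv
    refine ⟨fun hvK => SimpleGraph.ComponentCompl.notMem_of_mem hv hvK, fun hv1 => ?_⟩
    exact Set.disjoint_left.1 (SimpleGraph.ComponentCompl.pairwise_disjoint hK) hv1 hv
  have hT : TwoSided G {v | v ∉ K.unop ∧ v ∉ C₁} K.unop (C₁ : Set V) := by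
    refine ⟨fun v => ?_, fun v hv hv' => hv'.1 hv,
      fun v hv hv' => SimpleGraph.ComponentCompl.notMem_of_mem hv' hv, fun v hv hv' => hv.2 hv',
      fun u hu v huv => ?_, fun u hu v huv => ?_⟩
    · by_cases h1 : v ∈ K.unop
      · exact Or.inr (Or.inl h1)
      · by_cases h2 : v ∈ C₁
        · exact Or.inr (Or.inr h2)
        · exact Or.inl ⟨h1, h2⟩
    · by_cases h1 : v ∈ K.unop
      · exact Or.inr h1
      · refine Or.inl ⟨h1, fun h2 => hu.2 ?_⟩
        exact SimpleGraph.ComponentCompl.mem_of_adj v u h2 hu.1 huv.symm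
    · by_cases h1 : v ∈ K.unop
      · exact Or.inr h1
      · exact Or.inl (SimpleGraph.ComponentCompl.mem_of_adj u v hu h1 huv)
  refine tsep_of_deep' hG hF hT (deep_of_infinite hG hlf ?_ _) (deep_of_infinite hG hlf ?_ _)
  · exact Set.Infinite.mono hsub (hinf e₂)
  · exact hinf e₁

/-- a union of components -/
theorem proper_of_part {G : SimpleGraph V} {C : Set V} (hC : ∀ u ∈ C, ∀ v, G.Adj u v → v ∈ C)
    (h : ProperSelfMinor (G.induce C)) : ProperSelfMinor G := by
  classical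
  obtain ⟨B, h1, h2, h3, h4, w, x, hx, y, hy, hxy⟩ := h
  set m : V → Set V := fun v => if hv : v ∈ C then Subtype.val '' (B ⟨v, hv⟩) else {v} with hm
  have mC : ∀ v (hv : v ∈ C), m v = Subtype.val '' (B ⟨v, hv⟩) := fun v hv => dif_pos hv
  have mN : ∀ v, v ∉ C → m v = {v} := fun v hv => dif_neg hv
  have hsub : ∀ v, v ∈ C → m v ⊆ C := by
    intro v hv
    rw [mC v hv]
    rintro _ ⟨z, -, rfl⟩
    exact z.2
  have hcon : ∀ v (hv : v ∈ C), Con G.Adj (Subtype.val '' (B ⟨v, hv⟩)) := by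
    intro v hv
    have h5 : Con (G.induce C).Adj (B ⟨v, hv⟩) := con_of_induce (h2 ⟨v, hv⟩)
    rintro _ ⟨a, ha, rfl⟩ _ ⟨b, hb, rfl⟩
    have h6 := h5 a ha b hb
    clear hb
    induction h6 with
    | refl => exact .refl
    | @tail c d _ h7 ih => exact ih.tail ⟨h7.1, ⟨c, h7.2.1, rfl⟩, ⟨d, h7.2.2, rfl⟩⟩
  refine ⟨m, fun v => ?_, fun v => ?_, fun u v huv => ?_, fun u v huv => ?_, w, x, ?_, y, ?_, hxy⟩
  · by_cases hv : v ∈ C
    · rw [mC v hv]; exact (h1 ⟨v, hv⟩).image _
    · rw [mN v hv]; exact Set.singleton_nonempty _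
  · by_cases hv : v ∈ C
    · rw [mC v hv]; exact con_induce ((h1 ⟨v, hv⟩).image _) (hcon v hv)
    · rw [mN v hv]; exact con_induce (Set.singleton_nonempty _) (con_singleton _ _)
  · by_cases hu : u ∈ C
    · by_cases hv : v ∈ C
      · rw [mC u hu, mC v hv]
        exact (Set.disjoint_image_iff Subtype.val_injective).2
          (h3 _ _ fun h5 => huv (congrArg Subtype.val h5))
      · rw [mN v hv, Set.disjoint_singleton_right]
        exact fun h5 => hv (hsub u hu h5)
    · by_cases hv : v ∈ C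
      · rw [mN u hu, Set.disjoint_singleton_left]
        exact fun h5 => hu (hsub v hv h5)
      · rw [mN u hu, mN v hv, Set.disjoint_singleton]
        exact huv
  · by_cases hu : u ∈ C
    · have hv := hC u hu v huv
      obtain ⟨a, ha, b, hb, hab⟩ := h4 ⟨u, hu⟩ ⟨v, hv⟩ huv
      refine ⟨a, ?_, b, ?_, hab⟩
      · rw [mC u hu]; exact ⟨a, ha, rfl⟩
      · rw [mC v hv]; exact ⟨b, hb, rfl⟩
    · have hv : v ∉ C := fun hv => hu (hC v hv u huv.symm)
      refine ⟨u, ?_, v, ?_, huv⟩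
      · rw [mN u hu]; rfl
      · rw [mN v hv]; rfl
  · rw [mC w w.2]; exact ⟨x, hx, rfl⟩
  · rw [mC w w.2]; exact ⟨y, hy, rfl⟩

end SelfMinor
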